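import Mathlib
import Pool.Agent.P8H82.JG.Stm

set_option autoImplicit false

/-!
# Project WS (row `MP_c59389_nt`): Weil restrictions from `ℚ(√5)` of the semistable elliptic curves with
full two-torsion, the limit law of the height. The statements of the packages.
-/

namespace Pool.Agent.P8H82.WS

open NumberField IsDedekindDomain MeasureTheory Filter Topology
open Pool.Agent.P8H82.JG (Gold Triple Rep rad dens)

variable {K : Type} [Field K] [NumberField K]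

/-- the invariant of the Legendre curve `y² = x (x - 1) (x - l)` -/
noncomputable def jL (l : K) : K := 256 * (l ^ 2 - l + 1) ^ 3 / (l ^ 2 * (1 - l) ^ 2)

/-- the Legendre parameter of a triple -/
noncomputable def lamT (t : 𝓞 K × 𝓞 K × 𝓞 K) : K := -(t.1 : K) / (t.2.2 : K)

/-- `P` divides the denominator of `j`: the product of the norms of these primes -/
noncomputable def condJ (j : K) : ℝ :=
  ∏ᶠ (P : HeightOneSpectrum (𝓞 K)) (_ : 1 < P.valuation K j), (Ideal.absNorm P.asIdeal : ℝ)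

/-- `j` is not divisible by a prime above two -/
def Ord2 (j : K) : Prop :=
  ∀ P : HeightOneSpectrum (𝓞 K), P.valuation K 2 < 1 → 1 ≤ P.valuation K j

/-- the invariant as a function of the real shape `a / b` -/
noncomputable def jr (x : ℝ) : ℝ := 256 * (x ^ 2 + x + 1) ^ 3 / (x * (x + 1)) ^ 2

/-- package LAM: parameters and triples -/
def S_LAM : Prop := ∀ (K : Type) [Field K] [NumberField K], Module.finrank ℚ K = 2 →
  (∃ s : K, s ^ 2 = 5) →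
  (∀ t : 𝓞 K × 𝓞 K × 𝓞 K, Triple t → lamT t ≠ 0 ∧ lamT t ≠ 1) ∧
  (∀ l : K, l ≠ 0 → l ≠ 1 → ∃ t : 𝓞 K × 𝓞 K × 𝓞 K, Triple t ∧ lamT t = l) ∧
  ∀ t s : 𝓞 K × 𝓞 K × 𝓞 K, Triple t → Triple s → lamT t = lamT s →
    ∃ u : (𝓞 K)ˣ, s = (u * t.1, u * t.2.1, u * t.2.2)

/-- package JT: the invariant of a triple -/
def S_JT : Prop := ∀ (K : Type) [Field K] [NumberField K] (t : 𝓞 K × 𝓞 K × 𝓞 K), Triple t →
  jL (lamT t) = 256 * ((t.1 : K) ^ 2 + t.1 * t.2.1 + (t.2.1 : K) ^ 2) ^ 3 /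
    ((t.1 * t.2.1 * t.2.2 : 𝓞 K) : K) ^ 2 ∧
  ∀ σ : K →+* ℝ, σ t.1 / σ t.2.1 ≠ 0 ∧ σ t.1 / σ t.2.1 ≠ -1 ∧
    σ (jL (lamT t)) = jr (σ t.1 / σ t.2.1)

/-- package TWO: two is inert -/
def S_TWO : Prop := ∀ (K : Type) [Field K] [NumberField K] (σ τ : K →+* ℝ), Gold K σ τ →
  ∃ P : HeightOneSpectrum (𝓞 K), P.asIdeal = Ideal.span {2} ∧ Ideal.absNorm P.asIdeal = 4

/-- package VAL (from TWO) -/
def S_VAL : Prop := ∀ (K : Type) [Field K] [NumberField K] (σ τ : K →+* ℝ), Gold K σ τ →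
  ∀ t : 𝓞 K × 𝓞 K × 𝓞 K, Triple t →
  (Ord2 (jL (lamT t)) ↔ (16 : 𝓞 K) ∣ t.1 * t.2.1 * t.2.2) ∧
  ((32 : 𝓞 K) ∣ t.1 * t.2.1 * t.2.2 → condJ (jL (lamT t)) = rad t) ∧
  ((16 : 𝓞 K) ∣ t.1 * t.2.1 * t.2.2 → ¬ (32 : 𝓞 K) ∣ t.1 * t.2.1 * t.2.2 →
    condJ (jL (lamT t)) = rad t / 4) ∧
  ∀ w : Ideal (𝓞 K), Rep w t →
    ((16 : 𝓞 K) ∣ t.1 * t.2.1 * t.2.2 ↔ w ≤ Ideal.span {8}) ∧
    ((32 : 𝓞 K) ∣ t.1 * t.2.1 * t.2.2 ↔ w ≤ Ideal.span {16})

/-- package FPL: the finite places -/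
def S_FPL : Prop := ∀ (K : Type) [Field K] [NumberField K], Module.finrank ℚ K = 2 →
  ∀ t : 𝓞 K × 𝓞 K × 𝓞 K, Triple t → (16 : 𝓞 K) ∣ t.1 * t.2.1 * t.2.2 →
  ∑ᶠ v : HeightOneSpectrum (𝓞 K), Real.log (max (FinitePlace.mk v (jL (lamT t))) 1) =
    2 * Real.log (Ideal.absNorm (Ideal.span {t.1 * t.2.1 * t.2.2}) : ℝ) - 16 * Real.log 2

/-- package IPL: the infinite places -/
def S_IPL : Prop := ∀ (K : Type) [Field K] [NumberField K] (σ τ : K →+* ℝ), Gold K σ τ →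
  ∀ (F : ℂ → ℝ) (j : K), ∑ w : InfinitePlace K, (w.mult : ℝ) * F (w.embedding j) =
    F ((σ j : ℝ) : ℂ) + F ((τ j : ℝ) : ℂ)

/-- the region of the shapes -/
def QQ (f : ℝ → ℝ) (y : ℝ) : Set (ℝ × ℝ) :=
  {x | x.1 ≠ 0 ∧ x.1 ≠ -1 ∧ x.2 ≠ 0 ∧ x.2 ≠ -1 ∧ f (jr x.1) + f (jr x.2) ≤ y}

/-- an increasing function on the values of the invariant -/
structure Inc (f : ℝ → ℝ) : Prop where
  mono : StrictMonoOn f (Set.Ici 1728)
  cts : ContinuousOn f (Set.Ici 1728)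
  top : Tendsto f atTop atTop

/-- package QQ: the region is Borel with a null frontier -/
def S_QQ : Prop := ∀ f : ℝ → ℝ, Inc f → ∀ y : ℝ, MeasurableSet (QQ f y) ∧
  volume (frontier (QQ f y)) = 0

/-- package GG: the mass of the region -/
def S_GG : Prop := ∀ f : ℝ → ℝ, Inc f → Integrable dens →
  (Continuous fun y => ∫ x in QQ f y, dens x.1 * dens x.2) ∧
  (Monotone fun y => ∫ x in QQ f y, dens x.1 * dens x.2) ∧
  Tendsto (fun y => ∫ x in QQ f y, dens x.1 * dens x.2) atTop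
    (𝓝 (∫ x : ℝ × ℝ, dens x.1 * dens x.2)) ∧
  (∀ y, y < 2 * f 1728 → ∫ x in QQ f y, dens x.1 * dens x.2 = 0) ∧
  ∀ y, ∫ x in QQ f y, dens x.1 * dens x.2 < ∫ x : ℝ × ℝ, dens x.1 * dens x.2

/-- package LAW: mixtures of shifted distribution functions -/
def S_LAW : Prop := ∀ (ι : Type) (m : ι → ℝ) (c : ι → ℝ) (G : ℝ → ℝ) (I y₀ : ℝ),
  (∀ i, 0 ≤ m i) → Summable m → (∃ i, 0 < m i) → 0 < I →
  Continuous G → Monotone G → Tendsto G atTop (𝓝 I) → (∀ y, y < y₀ → G y = 0) → (∀ y, G y < I) →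
  (Continuous fun x : ℝ => (∑' i, m i * G (12 * x + c i)) / ∑' i, m i * I) ∧
  (Monotone fun x : ℝ => (∑' i, m i * G (12 * x + c i)) / ∑' i, m i * I) ∧
  (∀ x : ℝ, (∑' i, m i * G (12 * x + c i)) / ∑' i, m i * I < 1) ∧
  Tendsto (fun x : ℝ => (∑' i, m i * G (12 * x + c i)) / ∑' i, m i * I) atBot (𝓝 0) ∧
  Tendsto (fun x : ℝ => (∑' i, m i * G (12 * x + c i)) / ∑' i, m i * I) atTop (𝓝 1)

end Pool.Agent.P8H82.WS
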