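import Mathlib
import Pool.Agent.P8H82.WS.Stm

set_option autoImplicit false

/-!
# Project WS, second list of packages: the family is that of ALL semistable elliptic curves over `ℚ(√5)`
with full two-torsion. (`v.valuation K 2 < 1` or `v.asIdeal = span {2}`: the place above two.)
-/

namespace Pool.Agent.P8H82.WS

open NumberField IsDedekindDomain
open Pool.Agent.P8H82.JG (Gold Triple)

variable {K : Type} [Field K] [NumberField K]

/-- the equation is integral at `v` -/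
def IntAt (v : HeightOneSpectrum (𝓞 K)) (E : WeierstrassCurve K) : Prop :=
  v.valuation K E.a₁ ≤ 1 ∧ v.valuation K E.a₂ ≤ 1 ∧ v.valuation K E.a₃ ≤ 1 ∧
    v.valuation K E.a₄ ≤ 1 ∧ v.valuation K E.a₆ ≤ 1

/-- good reduction at `v` -/
def GoodAt (v : HeightOneSpectrum (𝓞 K)) (E : WeierstrassCurve K) : Prop :=
  ∃ C : WeierstrassCurve.VariableChange K, IntAt v (C • E) ∧ v.valuation K (C • E).Δ = 1

/-- semistable reduction at `v` -/
def SemiAt (v : HeightOneSpectrum (𝓞 K)) (E : WeierstrassCurve K) : Prop :=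
  ∃ C : WeierstrassCurve.VariableChange K, IntAt v (C • E) ∧
    (v.valuation K (C • E).Δ = 1 ∨ v.valuation K (C • E).c₄ = 1)

/-- the first coordinates of the three points of order two -/
structure Two (E : WeierstrassCurve K) (e : Fin 3 → K) : Prop where
  inj : Function.Injective e
  root : ∀ i, 4 * e i ^ 3 + E.b₂ * e i ^ 2 + 2 * E.b₄ * e i + E.b₆ = 0

/-- `l` is a Legendre parameter of `E` -/
def IsLeg (E : WeierstrassCurve K) (l : K) : Prop :=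
  ∃ e : Fin 3 → K, Two E e ∧ l = (e 2 - e 0) / (e 1 - e 0)

/-- package SEA (algebra, any field of characteristic zero): Vieta gives `b₂ = -4 s₁`, `b₄ = 2 s₂`,
`b₆ = -4 s₃` (from three distinct roots), so `c₄ = 16 (s₁² - 3 s₂)`, `Δ = 16 ∏ (eᵢ - eⱼ)²`,
`c₆ = 32 (e₀ + e₁ - 2 e₂) (e₀ + e₂ - 2 e₁) (e₁ + e₂ - 2 e₀)` up to the sign, which is the content of
the last part: for a second curve with the same parameter, `δ = (e' 1 - e' 0) / (e 1 - e 0)`,
`c₄' = δ² c₄`, `c₆' = δ³ c₆`, `Δ' = δ⁶ Δ` -/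
def S_SEA : Prop := ∀ (K : Type) [Field K] [NumberField K] (E : WeierstrassCurve K) (e : Fin 3 → K),
  Two E e → E.Δ ≠ 0 ∧ (e 2 - e 0) / (e 1 - e 0) ≠ 0 ∧ (e 2 - e 0) / (e 1 - e 0) ≠ 1 ∧
    E.c₄ ^ 3 / E.Δ = jL ((e 2 - e 0) / (e 1 - e 0)) ∧
    ∀ (E' : WeierstrassCurve K) (e' : Fin 3 → K), Two E' e' →
      (e' 2 - e' 0) / (e' 1 - e' 0) = (e 2 - e 0) / (e 1 - e 0) → ∀ δ : K,
      δ = (e' 1 - e' 0) / (e 1 - e 0) →
      E'.c₄ = δ ^ 2 * E.c₄ ∧ E'.c₆ = δ ^ 3 * E.c₆ ∧ E'.Δ = δ ^ 6 * E.Δ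

/-- package SED (formal): `j = c₄³ / Δ` does not change under `C •` and has valuation `≤ 1` for a good
model; if the model is integral, `c₄` is a unit and `j` has valuation `≤ 1`, then `Δ` is a unit -/
def S_SED : Prop := ∀ (K : Type) [Field K] [NumberField K] (v : HeightOneSpectrum (𝓞 K))
  (E : WeierstrassCurve K), E.Δ ≠ 0 → SemiAt v E →
  (GoodAt v E ↔ v.valuation K (E.c₄ ^ 3 / E.Δ) ≤ 1)

/-- package ORD: a semistable curve with a point of order two has ordinary or multiplicative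
reduction above two (`2` is inert). Take `C` with `C • E` integral and `Δ` a unit, and suppose
that `c₄` is not a unit. `c₄ = b₂² - 24 b₄`, `b₂ = a₁² + 4 a₂`, so `2 ∣ a₁`, `4 ∣ b₂`,
`b₄ = 2 a₄ + a₁ a₃` is even, and `b₆` is a unit by the formula for `Δ`. The root becomes
a root `x` of `4 x³ + b₂ x² + 2 b₄ x + b₆` (`x ↦ (x - r) / u²`). If `x` is integral then
`b₆` is divisible by 4; if not, `ord x = -m`, the first term has the order `2 - 3 m`, strictly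
smaller than the orders `≥ 2 - 2 m`, `≥ 2 - m` of the next two, so `2 - 3 m = 0`: impossible -/
def S_ORD : Prop := ∀ (K : Type) [Field K] [NumberField K] (v : HeightOneSpectrum (𝓞 K)),
  v.asIdeal = Ideal.span {2} → ∀ E : WeierstrassCurve K, E.Δ ≠ 0 →
  (∃ x : K, 4 * x ^ 3 + E.b₂ * x ^ 2 + 2 * E.b₄ * x + E.b₆ = 0) → SemiAt v E →
  ∃ C : WeierstrassCurve.VariableChange K, IntAt v (C • E) ∧ v.valuation K (C • E).c₄ = 1

/-- package UNI: the units fill `(𝓞 / 4)ˣ` (order 12; `φ = (1 + √5) / 2` has the order 6, and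
`-1` is not a power of it). `Pool.Agent.P8H52.JG.int_thm : S_INT` gives `φ² = φ + 1` and
`a = m + n φ`; go through `(m, n)` modulo 4, not both even, with the units `± φ ^ k`, `0 ≤ k < 6` -/
def S_UNI : Prop := ∀ (K : Type) [Field K] [NumberField K] (σ τ : K →+* ℝ), Gold K σ τ →
  ∀ a : 𝓞 K, ¬ (2 : 𝓞 K) ∣ a → ∃ u : (𝓞 K)ˣ, (4 : 𝓞 K) ∣ u * a + 1

/-- package SEF: the Frey curve `E = ⟨1, (D - A - 1) / 4, 0, - A D / 16, 0⟩`. It has `b₂ = D - A`,
`b₄ = - A D / 8`, `b₆ = 0`, `c₄ = A² + A D + D²`, `Δ = (A D (A + D))² / 256`. It is semistable (take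
`C = 1`): if `v ∤ A D (A + D)` then `v ∤ 2` and `Δ` is a unit, otherwise `c₄` is a unit -/
def S_SEF : Prop := ∀ (K : Type) [Field K] [NumberField K] (A D : 𝓞 K), A * D * (A + D) ≠ 0 →
  Ideal.span {A, D} = (⊤ : Ideal (𝓞 K)) → (4 : 𝓞 K) ∣ A + 1 → (16 : 𝓞 K) ∣ D →
  ∃ E : WeierstrassCurve K, (∀ v, SemiAt v E) ∧
    ∀ x : K, 4 * x ^ 3 + E.b₂ * x ^ 2 + 2 * E.b₄ * x + E.b₆ =
      4 * x * (x - (A : K) / 4) * (x + (D : K) / 4)

/-- package SEC (from TWO, UNI, SEF): `2` is prime, so `16` divides exactly one of `a`, `b`, `c` and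
the two others are prime to `2`. Case `16 ∣ b`: choose the unit `u` with `4 ∣ u c + 1`, put
`A = u c`, `D = u b`, `e 1 = 0`, `e 2 = - D / 4`, `e 0 = A / 4`. Case `16 ∣ a`: `A = u b`, `D = u a`,
`e 2 = 0`, `e 0 = - D / 4`, `e 1 = A / 4`. Case `16 ∣ c`: `A = u a`, `D = u c`, `e 0 = 0`,
`e 1 = - D / 4`, `e 2 = A / 4`. In all cases `(e 2 - e 0) / (e 1 - e 0) = - a / c = lamT t` -/
def S_SEC : Prop := ∀ (K : Type) [Field K] [NumberField K] (σ τ : K →+* ℝ), Gold K σ τ →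
  ∀ t : 𝓞 K × 𝓞 K × 𝓞 K, Triple t → (16 : 𝓞 K) ∣ t.1 * t.2.1 * t.2.2 →
  ∃ E : WeierstrassCurve K, (∀ v, SemiAt v E) ∧ IsLeg E (lamT t)

/-- package ISO (algebra): take `u = g⁻¹`, `r = e 0 - u² e' 0`, `s = (u a₁' - a₁) / 2`,
`t = (u³ a₃' - a₃ - r a₁) / 2` (check the conventions of Mathlib); `a₂`, `a₄`, `a₆` agree because
`b₂`, `b₄`, `b₆` do (Vieta) -/
def S_ISO : Prop := ∀ (K : Type) [Field K] [NumberField K] (E E' : WeierstrassCurve K)
  (e e' : Fin 3 → K), Two E e → Two E' e' → ∀ g : K, g ≠ 0 → e' 1 - e' 0 = g ^ 2 * (e 1 - e 0) →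
  e' 2 - e' 0 = g ^ 2 * (e 2 - e 0) → ∃ C : WeierstrassCurve.VariableChange K, C • E = E'

/-- package LOC (from ORD): `δ` is a square locally. Let `c₄' = δ² c₄`, `c₆' = δ³ c₆`, `Δ' = δ⁶ Δ` (from
SEA). Prime to two: `j` is the same for `E` and `E'`, so either both have a good model, `δ⁶` is a
12th power times a unit, or both have an integral model with `c₄` a unit, `δ²` is a fourth power
times a unit. Above two use the models of ORD: `b₂ = a₁² + 4 a₂` and `a₁` are units,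
`c₄ = b₂² - 24 b₄`, `- c₆ = b₂³ - 36 b₂ b₄ + 216 b₆`, so `- c₆ / c₄ ≡ b₂ ≡ a₁²` modulo `4`; divide
this for `E'` by that for `E` -/
def S_LOC : Prop := ∀ (K : Type) [Field K] [NumberField K] (v : HeightOneSpectrum (𝓞 K))
  (E E' : WeierstrassCurve K) (δ : K), E.Δ ≠ 0 → δ ≠ 0 → SemiAt v E → SemiAt v E' →
  (∃ x : K, 4 * x ^ 3 + E.b₂ * x ^ 2 + 2 * E.b₄ * x + E.b₆ = 0) →
  (∃ x : K, 4 * x ^ 3 + E'.b₂ * x ^ 2 + 2 * E'.b₄ * x + E'.b₆ = 0) →
  E'.c₄ = δ ^ 2 * E.c₄ → E'.c₆ = δ ^ 3 * E.c₆ → E'.Δ = δ ^ 6 * E.Δ →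
  (v.valuation K 2 = 1 → ∃ x : K, x ≠ 0 ∧ v.valuation K (x ^ 2 * δ) = 1) ∧
  (v.asIdeal = Ideal.span {2} → ∃ y : K, y ≠ 0 ∧ v.valuation K (y ^ 2 * δ - 1) ≤ v.valuation K 4)

/-- package GLO: `δ` is then a square. `𝓞` is principal (see `Pool.Agent.P8H20.WS.Lam`), so
`δ = u z²` with a unit `u = ± φ ^ k` (`S_CONE`, `S_INT`); if it is not a square then `-1`, `φ` or `-φ` is
a square modulo `4`: but `(m + n φ)² = m² + n² + (2 m n + n²) φ` -/
def S_GLO : Prop := ∀ (K : Type) [Field K] [NumberField K] (σ τ : K →+* ℝ), Gold K σ τ →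
  ∀ δ : K, δ ≠ 0 →
  (∀ v : HeightOneSpectrum (𝓞 K), v.valuation K 2 = 1 →
    ∃ x : K, x ≠ 0 ∧ v.valuation K (x ^ 2 * δ) = 1) →
  (∀ v : HeightOneSpectrum (𝓞 K), v.asIdeal = Ideal.span {2} →
    ∃ y : K, y ≠ 0 ∧ v.valuation K (y ^ 2 * δ - 1) ≤ v.valuation K 4) →
  ∃ g : K, g ≠ 0 ∧ δ = g ^ 2

end Pool.Agent.P8H82.WS
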