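import Mathlib
import Pool.Agent.P8H82.SH.Fin

set_option autoImplicit false

/-!
# Project WS: products of the members of a family given by a predicate
-/

namespace Pool.Agent.P8H82.WS

open Filter Topology MeasureTheory
open Pool.Agent.P8H82.PH
open Pool.Agent.P8H82.SH (s_cnt s_conv s_ph)

variable {α : Type} {Ok : α → Prop} {N H : α → ℝ}

/-- the tuples with size at most `X` and property `P` -/
def Tu (Ok : α → Prop) (N : α → ℝ) (n : ℕ) (X : ℝ) (P : (Fin n → α) → Prop) : Set (Fin n → α) :=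
  {q | (∀ k, Ok (q k)) ∧ ∏ k, N (q k) ≤ X ∧ P q}

/-- forgetting the proofs -/
def fgt (Ok : α → Prop) (n : ℕ) (v : Fin n → {a : α // Ok a}) : Fin n → α := fun k => (v k).1

theorem fgt_inj (n : ℕ) : Function.Injective (fgt Ok n) := by
  intro v v' h
  funext k
  exact Subtype.ext (congrFun h k)

theorem Tu_eq (n : ℕ) (X : ℝ) (P : (Fin n → α) → Prop) :
    Tu Ok N n X P = fgt Ok n '' {v | ∏ k, N (v k).1 ≤ X ∧ P (fgt Ok n v)} := by
  ext q
  constructor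
  · rintro ⟨h1, h2, h3⟩
    exact ⟨fun k => ⟨q k, h1 k⟩, ⟨h2, h3⟩, rfl⟩
  · rintro ⟨v, ⟨h1, h2⟩, rfl⟩
    exact ⟨fun k => (v k).2, h1, h2⟩

theorem Tu_tot (n : ℕ) (X : ℝ) : (Tu Ok N n X fun _ => True).ncard =
    tot (fun i : {a : α // Ok a} => N i.1) n X := by
  rw [Tu_eq, Set.ncard_image_of_injective _ (fgt_inj n)]
  simp only [and_true]
  rfl

theorem sum_c (hN : ∀ a, Ok a → 1 ≤ N a) (n : ℕ) (v : Fin n → {a : α // Ok a}) :
    ∑ k, (H (v k).1 - Real.log (N (v k).1) / 6) =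
      ∑ k, H (fgt Ok n v k) - Real.log (∏ k, N (v k).1) / 6 := by
  rw [Real.log_prod fun k _ => (lt_of_lt_of_le one_pos (hN _ (v k).2)).ne', Finset.sum_div,
    ← Finset.sum_sub_distrib]
  rfl

theorem Tu_cntk (hN : ∀ a, Ok a → 1 ≤ N a) (n : ℕ) (X δ c : ℝ) :
    (Tu Ok N n X fun q => ∑ k, H (q k) ≤ (1 / 6 + δ) * Real.log (∏ k, N (q k)) + c).ncard =
      cntk (fun i : {a : α // Ok a} => N i.1) (fun i => H i.1 - Real.log (N i.1) / 6) n X δ c := by
  rw [Tu_eq, Set.ncard_image_of_injective _ (fgt_inj n)]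
  unfold cntk
  congr 1
  ext v
  simp only [Set.mem_setOf_eq]
  rw [sum_c hN]
  have e : ∏ k, N (fgt Ok n v k) = ∏ k, N (v k).1 := rfl
  rw [e]
  constructor
  · rintro ⟨h1, h2⟩
    exact ⟨h1, by linarith⟩
  · rintro ⟨h1, h2⟩
    exact ⟨h1, by linarith⟩

theorem Tu_cnt (hN : ∀ a, Ok a → 1 ≤ N a) (n : ℕ) (X x : ℝ) :
    (Tu Ok N n X fun q => ∑ k, H (q k) ≤ 1 / 6 * Real.log (∏ k, N (q k)) + x).ncard =
      cnt (fun i : {a : α // Ok a} => N i.1) (fun i => H i.1 - Real.log (N i.1) / 6) n X x := by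
  rw [Tu_eq, Set.ncard_image_of_injective _ (fgt_inj n)]
  unfold cnt
  congr 1
  ext v
  simp only [Set.mem_setOf_eq]
  rw [sum_c hN]
  have e : ∏ k, N (fgt Ok n v k) = ∏ k, N (v k).1 := rfl
  rw [e]
  constructor
  · rintro ⟨h1, h2⟩
    exact ⟨h1, by linarith⟩
  · rintro ⟨h1, h2⟩
    exact ⟨h1, by linarith⟩

/-- the product law for a family given by a predicate -/
theorem gen_final {θ A : ℝ} {μ : Measure ℝ}
    (hF : Fam {a : α // Ok a} (fun i => N i.1) (fun i => H i.1 - Real.log (N i.1) / 6) θ A μ)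
    (n : ℕ) :
    Tendsto (fun X : ℝ => ((Tu Ok N (n + 1) X fun _ => True).ncard : ℝ) /
      (X ^ θ * Real.log X ^ n)) atTop (𝓝 (A ^ (n + 1) * θ ^ n / n.factorial)) ∧
    (∀ x : ℝ, Tendsto (fun X : ℝ => ((Tu Ok N (n + 1) X fun q => ∑ k, H (q k) ≤
      1 / 6 * Real.log (∏ k, N (q k)) + x).ncard : ℝ) /
        ((Tu Ok N (n + 1) X fun _ => True).ncard : ℝ)) atTop (𝓝 (Gn μ (n + 1) x))) ∧
    ∀ κ c : ℝ,
      (1 / 6 < κ → Tendsto (fun X : ℝ => ((Tu Ok N (n + 1) X fun q => ∑ k, H (q k) ≤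
        κ * Real.log (∏ k, N (q k)) + c).ncard : ℝ) /
          ((Tu Ok N (n + 1) X fun _ => True).ncard : ℝ)) atTop (𝓝 1)) ∧
      (κ < 1 / 6 → Tendsto (fun X : ℝ => ((Tu Ok N (n + 1) X fun q => ∑ k, H (q k) ≤
        κ * Real.log (∏ k, N (q k)) + c).ncard : ℝ) /
          ((Tu Ok N (n + 1) X fun _ => True).ncard : ℝ)) atTop (𝓝 0)) := by
  have hN : ∀ a, Ok a → 1 ≤ N a := fun a ha => hF.one ⟨a, ha⟩
  refine ⟨?_, fun x => ?_, fun κ c => ⟨fun h => ?_, fun h => ?_⟩⟩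
  · have h2 := (s_ph _ _ _ _ _ μ hF n).1
    simp only [Tu_tot]
    exact h2
  · have h2 := share_lim s_ph hF n x
    rw [Gn_eq s_conv hF] at h2
    simp only [Tu_tot, Tu_cnt hN]
    exact h2
  · have h2 := slope_pos s_ph s_conv s_cnt hF n (δ := κ - 1 / 6) (by linarith) c
    refine h2.congr fun X => ?_
    rw [← Tu_cntk hN, ← Tu_tot]
    simp only [add_sub_cancel]
  · have h2 := slope_neg s_ph s_conv s_cnt hF n (δ := κ - 1 / 6) (by linarith) c
    refine h2.congr fun X => ?_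
    rw [← Tu_cntk hN, ← Tu_tot]
    simp only [add_sub_cancel]

end Pool.Agent.P8H82.WS
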