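import Mathlib
import Pool.Agent.R465.FH.End
import Pool.Agent.P8H82.WS.Stm

set_option autoImplicit false

/-!
# Project WS: the archimedean term as a function of a real invariant
-/

namespace Pool.Agent.P8H82.WS

open Filter Topology
open Pool.Agent.TH876.FH (jInv arch)
open Pool.Agent.R465.FH (pt J ar J_mono ar_mono J_surj ar_surj ar_top J_top J_one arch_pt jInv_pt
  pt_of)

/-- `τ = i y`, `y ≥ 1`, is a point with the invariant `z` -/
def IsPz (z : ℂ) (τ : UpperHalfPlane) : Prop := τ.re = 0 ∧ 1 ≤ τ.im ∧ jInv τ = z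

/-- the period -/
noncomputable def per (z : ℂ) : UpperHalfPlane := Classical.epsilon (IsPz z)

/-- the archimedean term of a complex invariant -/
noncomputable def aC (z : ℂ) : ℝ := arch (per z)

/-- the archimedean term of a real invariant -/
noncomputable def aa (x : ℝ) : ℝ := aC ((x : ℝ) : ℂ)

theorem ex_unique {x : ℝ} (hx : 1728 ≤ x) : ∃! τ, IsPz ((x : ℝ) : ℂ) τ := by
  obtain ⟨y, hy, hJ⟩ := J_surj hx
  have hy0 : 0 < y := by linarith
  refine ⟨pt y hy0, ⟨rfl, hy, by rw [jInv_pt, hJ]⟩, ?_⟩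
  rintro τ ⟨h1, h2, h3⟩
  have h4 := pt_of h1
  rw [h4, jInv_pt] at h3
  have h5 : J τ.im = x := by exact_mod_cast h3
  have h6 : τ.im = y := J_mono.injOn h2 hy (h5.trans hJ.symm)
  rw [h4]
  congr 1

theorem aa_J {y : ℝ} (hy : 1 ≤ y) : aa (J y) = ar y := by
  have hy0 : 0 < y := by linarith
  have hx : 1728 ≤ J y := by
    rw [← J_one]
    exact J_mono.monotoneOn Set.self_mem_Ici hy hy
  obtain ⟨σ, hσ, hu⟩ := ex_unique hx
  have h1 : IsPz ((J y : ℝ) : ℂ) (pt y hy0) := ⟨rfl, hy, by rw [jInv_pt]⟩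
  have h2 : IsPz ((J y : ℝ) : ℂ) (per ((J y : ℝ) : ℂ)) := Classical.epsilon_spec ⟨σ, hσ⟩
  have h3 : per ((J y : ℝ) : ℂ) = pt y hy0 := (hu _ h2).trans (hu _ h1).symm
  show arch (per ((J y : ℝ) : ℂ)) = ar y
  rw [h3, arch_pt]

theorem inc_aa : Inc aa := by
  have hmono : StrictMonoOn aa (Set.Ici 1728) := by
    intro a ha b hb hab
    obtain ⟨y, hy, rfl⟩ := J_surj (Set.mem_Ici.1 ha)
    obtain ⟨z, hz, rfl⟩ := J_surj (Set.mem_Ici.1 hb)
    rw [aa_J hy, aa_J hz]
    exact ar_mono hy hz ((J_mono.lt_iff_lt hy hz).1 hab)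
  refine ⟨hmono, ?_, ?_⟩
  · -- a monotone surjection between half lines
    obtain ⟨g, hg⟩ : ∃ g : Set.Ici (1728 : ℝ) → Set.Ici (ar 1), ∀ x, (g x : ℝ) = aa x := by
      refine ⟨fun x => ⟨aa x, ?_⟩, fun x => rfl⟩
      obtain ⟨y, hy, h⟩ := J_surj (Set.mem_Ici.1 x.2)
      rw [← h, aa_J hy]
      exact ar_mono.monotoneOn Set.self_mem_Ici hy hy
    have hgm : Monotone g := by
      intro a b hab
      show (g a : ℝ) ≤ (g b : ℝ)
      rw [hg, hg]
      exact hmono.monotoneOn a.2 b.2 hab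
    have hgs : Function.Surjective g := by
      intro b
      obtain ⟨y, hy, h⟩ := ar_surj (Set.mem_Ici.1 b.2)
      have hx : (1728 : ℝ) ≤ J y := by
        rw [← J_one]
        exact J_mono.monotoneOn Set.self_mem_Ici hy hy
      refine ⟨⟨J y, hx⟩, Subtype.ext ?_⟩
      rw [hg, aa_J hy, h]
    have hgc : Continuous g := hgm.continuous_of_surjective hgs
    rw [continuousOn_iff_continuous_domRestrict]
    have : (Set.Ici (1728 : ℝ)).domRestrict aa = fun x => (g x : ℝ) := by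
      funext x
      exact (hg x).symm
    rw [this]
    exact continuous_subtype_val.comp hgc
  · rw [tendsto_atTop]
    intro b
    obtain ⟨y, hy1, hy⟩ := ((eventually_ge_atTop 1).and
      (ar_top.eventually_ge_atTop b)).exists
    filter_upwards [eventually_ge_atTop (J y)] with x hx
    have h1 : (1728 : ℝ) ≤ J y := by
      rw [← J_one]
      exact J_mono.monotoneOn Set.self_mem_Ici hy1 hy1
    have h2 := hmono.monotoneOn (Set.mem_Ici.2 h1) (Set.mem_Ici.2 (h1.trans hx)) hx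
    rw [aa_J hy1] at h2
    linarith

end Pool.Agent.P8H82.WS
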