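import Mathlib
import Pool.Agent.P8H82.WS.Inc
import Pool.Agent.P8H82.WS.Gen
import Pool.Agent.P8H82.JG.Main

set_option autoImplicit false

/-!
# Project WS: the assembly
-/

namespace Pool.Agent.P8H82.WS

open NumberField IsDedekindDomain MeasureTheory Filter Topology
open Pool.Agent.P8H82.JG (Gold Triple Rep rad dens shp Reps lam c0 rho mass lam_pos S_BETA S_RAD)

variable {K : Type} [Field K] [NumberField K]

theorem s_rad : S_RAD := Pool.Agent.P8H56.JG.rad_main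

theorem s_beta : S_BETA := Pool.Agent.P8H56.JG.beta_main

/-- the conductor of the surface -/
noncomputable def NA (l : K) : ℝ := 25 * condJ (jL l)

/-- the height of the surface -/
noncomputable def hA (l : K) : ℝ :=
  (∑ᶠ v : HeightOneSpectrum (𝓞 K), Real.log (max (FinitePlace.mk v (jL l)) 1) +
    ∑ w : InfinitePlace K, (w.mult : ℝ) * aC (w.embedding (jL l))) / 12

/-- the parameters -/
def Okl (l : K) : Prop := l ≠ 0 ∧ l ≠ 1 ∧ Ord2 (jL l)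

/-- the product of the entries -/
def pr (t : 𝓞 K × 𝓞 K × 𝓞 K) : 𝓞 K := t.1 * t.2.1 * t.2.2

/-- the weight of the repeated part in the semistable family -/
noncomputable def mw (w : Ideal (𝓞 K)) : ℝ := by
  classical
  exact if w ≤ Ideal.span {16} then rho w else
    if w ≤ Ideal.span {8} then (4 : ℝ) ^ ((2 : ℝ) / 3) * rho w else 0

/-- the shift -/
noncomputable def cc (w : Ideal (𝓞 K)) : ℝ := by
  classical
  exact 2 * Real.log 25 + 16 * Real.log 2 - 2 * Real.log (Ideal.absNorm w : ℝ) -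
    if w ≤ Ideal.span {16} then 0 else 2 * Real.log 4

theorem dvd_unit (t : 𝓞 K × 𝓞 K × 𝓞 K) (u : (𝓞 K)ˣ) (m : 𝓞 K)
    (h : m ∣ (u * t.1) * (u * t.2.1) * (u * t.2.2)) : m ∣ t.1 * t.2.1 * t.2.2 := by
  have e : ((u : 𝓞 K) * t.1) * (u * t.2.1) * (u * t.2.2) =
      ((u ^ 3 : (𝓞 K)ˣ) : 𝓞 K) * (t.1 * t.2.1 * t.2.2) := by
    push_cast
    ring
  rw [e] at h
  exact (Units.dvd_mul_left).1 h

theorem lamT_unit (t : 𝓞 K × 𝓞 K × 𝓞 K) (u : (𝓞 K)ˣ) :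
    lamT ((u : 𝓞 K) * t.1, (u : 𝓞 K) * t.2.1, (u : 𝓞 K) * t.2.2) = lamT t := by
  have hu : ((u : 𝓞 K) : K) ≠ 0 := by
    have := u.ne_zero
    exact_mod_cast this
  unfold lamT
  simp only
  push_cast
  rw [← mul_neg, mul_div_mul_left _ _ hu]

theorem condJ_one (j : K) : 1 ≤ condJ j := by
  unfold condJ
  refine finprod_induction (fun x => (1 : ℝ) ≤ x) le_rfl (fun a b ha hb => one_le_mul_of_one_le_of_one_le ha hb)
    fun P => ?_
  refine finprod_induction (fun x => (1 : ℝ) ≤ x) le_rfl (fun a b ha hb => one_le_mul_of_one_le_of_one_le ha hb)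
    fun _ => ?_
  exact Pool.Agent.P8H56.JG.one_le_absNorm P

theorem NA_one (l : K) : 1 ≤ NA l := by
  have := condJ_one (jL l)
  unfold NA
  linarith

/-- the two parts of the family -/
theorem split (hL : S_LAM) (hV : S_VAL) (hK : Module.finrank ℚ K = 2) (h5 : ∃ s : K, s ^ 2 = 5)
    {σ τ : K →+* ℝ} (hG : Gold K σ τ) (P : K → Prop) {X : ℝ}
    {E E' : Finset (𝓞 K × 𝓞 K × 𝓞 K)} (hE : Reps (X / 25) E) (hE' : Reps (4 * (X / 25)) E') :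
    {l : K | Okl l ∧ NA l ≤ X ∧ P l} =
      lamT '' {t | t ∈ E ∧ (32 : 𝓞 K) ∣ t.1 * t.2.1 * t.2.2 ∧ P (lamT t)} ∪
      lamT '' {t | t ∈ E' ∧ ((16 : 𝓞 K) ∣ t.1 * t.2.1 * t.2.2 ∧
        ¬ (32 : 𝓞 K) ∣ t.1 * t.2.1 * t.2.2) ∧ P (lamT t)} := by
  obtain ⟨a1, a2, -⟩ := hL K hK h5
  have hdv : (16 : 𝓞 K) ∣ 32 := ⟨2, by norm_num⟩
  ext l
  constructor
  · rintro ⟨⟨h1, h2, h3⟩, h4, h5⟩
    obtain ⟨t, ht, rfl⟩ := a2 l h1 h2
    obtain ⟨b1, b2, b3, -⟩ := hV K σ τ hG t ht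
    have h16 := b1.1 h3
    unfold NA at h4
    by_cases h32 : (32 : 𝓞 K) ∣ t.1 * t.2.1 * t.2.2
    · left
      rw [b2 h32] at h4
      obtain ⟨s, hs, u, hu⟩ := hE.full t ht (by linarith)
      refine ⟨s, ⟨hs, ?_, ?_⟩, ?_⟩
      · rw [hu] at h32
        exact dvd_unit s u 32 h32
      · rw [hu, lamT_unit] at h5
        exact h5
      · rw [hu, lamT_unit]
    · right
      rw [b3 h16 h32] at h4
      obtain ⟨s, hs, u, hu⟩ := hE'.full t ht (by linarith)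
      refine ⟨s, ⟨hs, ⟨?_, ?_⟩, ?_⟩, ?_⟩
      · rw [hu] at h16
        exact dvd_unit s u 16 h16
      · intro h
        apply h32
        rw [hu]
        have e : ((u : 𝓞 K) * s.1) * (u * s.2.1) * (u * s.2.2) =
            ((u : 𝓞 K) ^ 3) * (s.1 * s.2.1 * s.2.2) := by ring
        simp only
        rw [e]
        exact h.mul_left _
      · rw [hu, lamT_unit] at h5
        exact h5
      · rw [hu, lamT_unit]
  · rintro (⟨t, ⟨ht, h32, hP⟩, rfl⟩ | ⟨t, ⟨ht, ⟨h16, h32⟩, hP⟩, rfl⟩)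
    · obtain ⟨ht1, ht2⟩ := hE.mem t ht
      obtain ⟨b1, b2, b3, -⟩ := hV K σ τ hG t ht1
      obtain ⟨c1, c2⟩ := a1 t ht1
      refine ⟨⟨c1, c2, b1.2 (hdv.trans h32)⟩, ?_, hP⟩
      unfold NA
      rw [b2 h32]
      linarith
    · obtain ⟨ht1, ht2⟩ := hE'.mem t ht
      obtain ⟨b1, b2, b3, -⟩ := hV K σ τ hG t ht1
      obtain ⟨c1, c2⟩ := a1 t ht1
      refine ⟨⟨c1, c2, b1.2 h16⟩, ?_, hP⟩
      unfold NA
      rw [b3 h16 h32]
      linarith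

theorem lam_inj (hL : S_LAM) (hK : Module.finrank ℚ K = 2) (h5 : ∃ s : K, s ^ 2 = 5)
    {X : ℝ} {E : Finset (𝓞 K × 𝓞 K × 𝓞 K)} (hE : Reps X E) :
    Set.InjOn (lamT : 𝓞 K × 𝓞 K × 𝓞 K → K) E := by
  intro t ht s hs h
  obtain ⟨-, -, a3⟩ := hL K hK h5
  obtain ⟨u, hu⟩ := a3 t s (hE.mem t ht).1 (hE.mem s hs).1 h
  exact (hE.ineq t ht s hs u hu).symm

theorem split_card (hL : S_LAM) (hV : S_VAL) (hK : Module.finrank ℚ K = 2)
    (h5 : ∃ s : K, s ^ 2 = 5) {σ τ : K →+* ℝ} (hG : Gold K σ τ) (P : K → Prop) {X : ℝ}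
    {E E' : Finset (𝓞 K × 𝓞 K × 𝓞 K)} (hE : Reps (X / 25) E) (hE' : Reps (4 * (X / 25)) E') :
    {l : K | Okl l ∧ NA l ≤ X ∧ P l}.Finite ∧
    {l : K | Okl l ∧ NA l ≤ X ∧ P l}.ncard =
      {t | t ∈ E ∧ (32 : 𝓞 K) ∣ t.1 * t.2.1 * t.2.2 ∧ P (lamT t)}.ncard +
      {t | t ∈ E' ∧ ((16 : 𝓞 K) ∣ t.1 * t.2.1 * t.2.2 ∧
        ¬ (32 : 𝓞 K) ∣ t.1 * t.2.1 * t.2.2) ∧ P (lamT t)}.ncard := by
  rw [split hL hV hK h5 hG P hE hE']
  have f1 : {t | t ∈ E ∧ (32 : 𝓞 K) ∣ t.1 * t.2.1 * t.2.2 ∧ P (lamT t)}.Finite :=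
    E.finite_toSet.subset fun t ht => ht.1
  have f2 : {t | t ∈ E' ∧ ((16 : 𝓞 K) ∣ t.1 * t.2.1 * t.2.2 ∧
      ¬ (32 : 𝓞 K) ∣ t.1 * t.2.1 * t.2.2) ∧ P (lamT t)}.Finite :=
    E'.finite_toSet.subset fun t ht => ht.1
  refine ⟨(f1.image _).union (f2.image _), ?_⟩
  rw [Set.ncard_union_eq ?_ (f1.image _) (f2.image _), Set.ncard_image_of_injOn,
    Set.ncard_image_of_injOn]
  · intro t ht s hs h
    exact lam_inj hL hK h5 hE' ht.1 hs.1 h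
  · intro t ht s hs h
    exact lam_inj hL hK h5 hE ht.1 hs.1 h
  · rw [Set.disjoint_left]
    rintro l ⟨t, ⟨ht, h32, -⟩, rfl⟩ ⟨s, ⟨hs, ⟨-, h32'⟩, -⟩, h⟩
    obtain ⟨-, -, a3⟩ := hL K hK h5
    obtain ⟨u, hu⟩ := a3 s t (hE'.mem s hs).1 (hE.mem t ht).1 h
    apply h32'
    rw [hu] at h32
    exact dvd_unit s u 32 h32

/-- the condition on the height -/
theorem height_iff (hV : S_VAL) (hFP : S_FPL) (hIP : S_IPL) (hJT : S_JT)
    (hK : Module.finrank ℚ K = 2) {σ τ : K →+* ℝ} (hG : Gold K σ τ) (x : ℝ)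
    {t : 𝓞 K × 𝓞 K × 𝓞 K} {w : Ideal (𝓞 K)} (ht : Triple t) (hw : Rep w t)
    (h16 : (16 : 𝓞 K) ∣ t.1 * t.2.1 * t.2.2) :
    hA (lamT t) ≤ 1 / 6 * Real.log (NA (lamT t)) + x ↔ shp σ τ t ∈ QQ aa (12 * x + cc w) := by
  classical
  obtain ⟨b1, b2, b3, b4⟩ := hV K σ τ hG t ht
  obtain ⟨r1, r2, r3, r4, r5⟩ := s_rad K t ht
  obtain ⟨r6, r7⟩ := r5 w hw
  obtain ⟨-, b6⟩ := b4 w hw
  have hrad : 0 < rad t := by linarith
  have hNw : (0 : ℝ) < Ideal.absNorm w := by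
    have : Ideal.absNorm w ≠ 0 := fun h => r6 (Ideal.absNorm_eq_zero_iff.1 h)
    exact_mod_cast Nat.pos_of_ne_zero this
  have hj := hJT K t ht
  obtain ⟨s1, s2, s3⟩ := hj.2 σ
  obtain ⟨t1, t2, t3⟩ := hj.2 τ
  have e1 : 12 * hA (lamT t) = 2 * (Real.log (Ideal.absNorm w : ℝ) + Real.log (rad t)) -
      16 * Real.log 2 + (aa (jr (σ t.1 / σ t.2.1)) + aa (jr (τ t.1 / τ t.2.1))) := by
    unfold hA
    rw [hFP K hK t ht h16, hIP K σ τ hG aC (jL (lamT t)), ← r7, Real.log_mul hNw.ne' hrad.ne',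
      s3, t3]
    unfold aa
    ring
  have e2 : Real.log (NA (lamT t)) = Real.log 25 + Real.log (rad t) -
      (if w ≤ Ideal.span {16} then 0 else Real.log 4) := by
    unfold NA
    by_cases h32 : (32 : 𝓞 K) ∣ t.1 * t.2.1 * t.2.2
    · rw [b2 h32, if_pos (b6.1 h32), Real.log_mul (by norm_num) hrad.ne']
      ring
    · rw [b3 h16 h32, if_neg fun h => h32 (b6.2 h), Real.log_mul (by norm_num) (by positivity),
        Real.log_div hrad.ne' (by norm_num)]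
      ring
  unfold QQ shp cc
  simp only [Set.mem_setOf_eq]
  have e3 : (if w ≤ Ideal.span {(16 : 𝓞 K)} then (0 : ℝ) else 2 * Real.log 4) =
      2 * (if w ≤ Ideal.span {(16 : 𝓞 K)} then (0 : ℝ) else Real.log 4) := by
    split_ifs <;> ring
  constructor
  · intro h
    refine ⟨s1, s2, t1, t2, ?_⟩
    rw [e3]
    rw [e2] at h
    linarith
  · rintro ⟨-, -, -, -, h⟩
    rw [e3] at h
    rw [e2]
    linarith

/-- the asymptotic number of the parameters with a property given by shapes -/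
theorem lim_of (hL : S_LAM) (hV : S_VAL) (hK : Module.finrank ℚ K = 2)
    (h5 : ∃ s : K, s ^ 2 = 5) {σ τ : K →+* ℝ} (hG : Gold K σ τ) (P : K → Prop)
    (R : Ideal (𝓞 K) → Set (ℝ × ℝ))
    (hR : ∀ w, MeasurableSet (R w) ∧ volume (frontier (R w)) = 0)
    (hP : ∀ (t : 𝓞 K × 𝓞 K × 𝓞 K) (w : Ideal (𝓞 K)), Triple t → Rep w t →
      (16 : 𝓞 K) ∣ t.1 * t.2.1 * t.2.2 → (P (lamT t) ↔ shp σ τ t ∈ R w)) :
    Tendsto (fun X : ℝ => ({l : K | Okl l ∧ NA l ≤ X ∧ P l}.ncard : ℝ) / X ^ ((2 : ℝ) / 3)) atTop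
      (𝓝 ((1 / 25 : ℝ) ^ ((2 : ℝ) / 3) * (lam * c0 K) * ∑' w, mw w * mass (R w))) := by
  classical
  have hdv : (16 : 𝓞 K) ∣ 32 := ⟨2, by norm_num⟩
  obtain ⟨-, -, -, -, hsum, -, -, -, hex, hmain⟩ := Pool.Agent.P8H82.JG.main_thm (K := K) hK h5
  choose! E hE using hex
  obtain ⟨-, hlaw, -⟩ := hmain E hE
  have hd : ∀ w : Ideal (𝓞 K), w ≤ Ideal.span {(16 : 𝓞 K)} → w ≤ Ideal.span {(8 : 𝓞 K)} :=
    fun w h => h.trans (Ideal.span_singleton_le_span_singleton.2 ⟨2, by norm_num⟩)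
  obtain ⟨Q1, hQ1⟩ : ∃ Q1 : Ideal (𝓞 K) → Set (ℝ × ℝ), Q1 = fun w =>
    if w ≤ Ideal.span {(16 : 𝓞 K)} then R w else ∅ := ⟨_, rfl⟩
  obtain ⟨Q2, hQ2⟩ : ∃ Q2 : Ideal (𝓞 K) → Set (ℝ × ℝ), Q2 = fun w =>
    if w ≤ Ideal.span {(8 : 𝓞 K)} ∧ ¬ w ≤ Ideal.span {(16 : 𝓞 K)} then R w else ∅ := ⟨_, rfl⟩
  have m1 : ∀ w, MeasurableSet (Q1 w) ∧ volume (frontier (Q1 w)) = 0 := by
    intro w
    rw [hQ1]
    simp only
    split_ifs
    · exact hR w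
    · simp
  have m2 : ∀ w, MeasurableSet (Q2 w) ∧ volume (frontier (Q2 w)) = 0 := by
    intro w
    rw [hQ2]
    simp only
    split_ifs
    · exact hR w
    · simp
  have l1 := hlaw σ τ hG.ne Q1 m1
  have l2 := hlaw σ τ hG.ne Q2 m2
  have s1 : Tendsto (fun X : ℝ => X / 25) atTop atTop := tendsto_id.atTop_div_const (by norm_num)
  have s2 : Tendsto (fun X : ℝ => 4 * (X / 25)) atTop atTop := s1.const_mul_atTop (by norm_num)
  have k1 := (l1.comp s1).const_mul ((1 / 25 : ℝ) ^ ((2 : ℝ) / 3))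
  have k2 := (l2.comp s2).const_mul ((4 / 25 : ℝ) ^ ((2 : ℝ) / 3))
  have hmass0 : mass (∅ : Set (ℝ × ℝ)) = 0 := by
    unfold mass
    simp
  -- the two families of sums
  have b1 : Summable fun w : Ideal (𝓞 K) => rho w * mass (Q1 w) := by
    refine Summable.of_nonneg_of_le (fun w => mul_nonneg (Pool.Agent.P8H82.JG.rho_nonneg w)
      (Pool.Agent.P8H82.JG.mass_nonneg _)) (fun w => mul_le_mul_of_nonneg_left
      (Pool.Agent.P8H82.JG.mass_bound s_beta _) (Pool.Agent.P8H82.JG.rho_nonneg w))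
      (hsum.mul_right _)
  have b2 : Summable fun w : Ideal (𝓞 K) => rho w * mass (Q2 w) := by
    refine Summable.of_nonneg_of_le (fun w => mul_nonneg (Pool.Agent.P8H82.JG.rho_nonneg w)
      (Pool.Agent.P8H82.JG.mass_nonneg _)) (fun w => mul_le_mul_of_nonneg_left
      (Pool.Agent.P8H82.JG.mass_bound s_beta _) (Pool.Agent.P8H82.JG.rho_nonneg w))
      (hsum.mul_right _)
  have hval : (1 / 25 : ℝ) ^ ((2 : ℝ) / 3) * (lam * c0 K * ∑' w, rho w * mass (Q1 w)) +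
      (4 / 25 : ℝ) ^ ((2 : ℝ) / 3) * (lam * c0 K * ∑' w, rho w * mass (Q2 w)) =
      (1 / 25 : ℝ) ^ ((2 : ℝ) / 3) * (lam * c0 K) * ∑' w, mw w * mass (R w) := by
    have e1 : (4 / 25 : ℝ) ^ ((2 : ℝ) / 3) = (1 / 25 : ℝ) ^ ((2 : ℝ) / 3) *
        (4 : ℝ) ^ ((2 : ℝ) / 3) := by
      rw [← Real.mul_rpow (by norm_num) (by norm_num)]
      norm_num
    have e2 : ∑' w : Ideal (𝓞 K), mw w * mass (R w) = ∑' w, rho w * mass (Q1 w) +
        (4 : ℝ) ^ ((2 : ℝ) / 3) * ∑' w, rho w * mass (Q2 w) := by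
      rw [← tsum_mul_left, ← b1.tsum_add (b2.mul_left _)]
      refine tsum_congr fun w => ?_
      unfold mw
      rw [hQ1, hQ2]
      simp only
      by_cases h1 : w ≤ Ideal.span {(16 : 𝓞 K)}
      · rw [if_pos h1, if_pos h1, if_neg (fun h => h.2 h1), hmass0]
        ring
      · by_cases h2 : w ≤ Ideal.span {(8 : 𝓞 K)}
        · rw [if_neg h1, if_pos h2, if_neg h1, if_pos ⟨h2, h1⟩, hmass0]
          ring
        · rw [if_neg h1, if_neg h2, if_neg h1, if_neg (fun h => h2 h.1), hmass0]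
          ring
    rw [e1, e2]
    ring
  rw [← hval]
  refine (k1.add k2).congr' ?_
  filter_upwards [eventually_ge_atTop 25] with X hX
  have hX0 : (0 : ℝ) < X := by linarith
  have hX1 : (1 : ℝ) ≤ X / 25 := by
    rw [le_div_iff₀ (by norm_num)]
    linarith
  have hX4 : (1 : ℝ) ≤ 4 * (X / 25) := by linarith
  have hE1 := hE (X / 25) hX1
  have hE4 := hE (4 * (X / 25)) hX4
  rw [(split_card hL hV hK h5 hG P hE1 hE4).2]
  have g1 : {t | t ∈ E (X / 25) ∧ (32 : 𝓞 K) ∣ t.1 * t.2.1 * t.2.2 ∧ P (lamT t)} =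
      {t | t ∈ E (X / 25) ∧ ∃ w, Rep w t ∧ shp σ τ t ∈ Q1 w} := by
    ext t
    constructor
    · rintro ⟨ht, h32, hPt⟩
      have ht1 := (hE1.mem t ht).1
      obtain ⟨-, -, ⟨w, -, hw⟩, -⟩ := s_rad K t ht1
      obtain ⟨-, -, -, b4⟩ := hV K σ τ hG t ht1
      refine ⟨ht, w, hw, ?_⟩
      rw [hQ1]
      simp only
      rw [if_pos ((b4 w hw).2.1 h32)]
      exact (hP t w ht1 hw (hdv.trans h32)).1 hPt
    · rintro ⟨ht, w, hw, hs⟩
      have ht1 := (hE1.mem t ht).1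
      obtain ⟨-, -, -, b4⟩ := hV K σ τ hG t ht1
      rw [hQ1] at hs
      simp only at hs
      by_cases h1 : w ≤ Ideal.span {(16 : 𝓞 K)}
      · rw [if_pos h1] at hs
        have h32 := (b4 w hw).2.2 h1
        exact ⟨ht, h32, (hP t w ht1 hw (hdv.trans h32)).2 hs⟩
      · rw [if_neg h1] at hs
        exact absurd hs (Set.notMem_empty _)
  have g2 : {t | t ∈ E (4 * (X / 25)) ∧ ((16 : 𝓞 K) ∣ t.1 * t.2.1 * t.2.2 ∧
      ¬ (32 : 𝓞 K) ∣ t.1 * t.2.1 * t.2.2) ∧ P (lamT t)} =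
      {t | t ∈ E (4 * (X / 25)) ∧ ∃ w, Rep w t ∧ shp σ τ t ∈ Q2 w} := by
    ext t
    constructor
    · rintro ⟨ht, ⟨h16, h32⟩, hPt⟩
      have ht1 := (hE4.mem t ht).1
      obtain ⟨-, -, ⟨w, -, hw⟩, -⟩ := s_rad K t ht1
      obtain ⟨-, -, -, b4⟩ := hV K σ τ hG t ht1
      refine ⟨ht, w, hw, ?_⟩
      rw [hQ2]
      simp only
      rw [if_pos ⟨(b4 w hw).1.1 h16, fun h => h32 ((b4 w hw).2.2 h)⟩]
      exact (hP t w ht1 hw h16).1 hPt
    · rintro ⟨ht, w, hw, hs⟩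
      have ht1 := (hE4.mem t ht).1
      obtain ⟨-, -, -, b4⟩ := hV K σ τ hG t ht1
      rw [hQ2] at hs
      simp only at hs
      by_cases h1 : w ≤ Ideal.span {(8 : 𝓞 K)} ∧ ¬ w ≤ Ideal.span {(16 : 𝓞 K)}
      · rw [if_pos h1] at hs
        have h16 := (b4 w hw).1.2 h1.1
        exact ⟨ht, ⟨h16, fun h => h1.2 ((b4 w hw).2.1 h)⟩, (hP t w ht1 hw h16).2 hs⟩
      · rw [if_neg h1] at hs
        exact absurd hs (Set.notMem_empty _)
  rw [g1, g2]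
  simp only [Function.comp]
  have p0 : (0 : ℝ) < X ^ ((2 : ℝ) / 3) := by positivity
  have p1 : (X / 25) ^ ((2 : ℝ) / 3) = (1 / 25 : ℝ) ^ ((2 : ℝ) / 3) * X ^ ((2 : ℝ) / 3) := by
    rw [← Real.mul_rpow (by norm_num) hX0.le]
    congr 1
    ring
  have p2 : (4 * (X / 25)) ^ ((2 : ℝ) / 3) = (4 / 25 : ℝ) ^ ((2 : ℝ) / 3) * X ^ ((2 : ℝ) / 3) := by
    rw [← Real.mul_rpow (by norm_num) hX0.le]
    congr 1
    ring
  rw [p1, p2]
  have q1 : (0 : ℝ) < (1 / 25 : ℝ) ^ ((2 : ℝ) / 3) := by positivity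
  have q2 : (0 : ℝ) < (4 / 25 : ℝ) ^ ((2 : ℝ) / 3) := by positivity
  push_cast
  field_simp

end Pool.Agent.P8H82.WS
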