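import Mathlib
import Pool.Agent.P8H82.WS.Main
import Pool.Agent.P8H57.WS.Val
import Pool.Agent.P8H78.WS.Reg
import Pool.Agent.P8H88.WS.Ipl
import Pool.Agent.P8H88.WS.Fpl
import Pool.Agent.P8H20.WS.Lam
import Pool.Agent.P8H56.WS.Law

set_option autoImplicit false

/-!
# Project WS: the theorem for the family of the parameters
-/

namespace Pool.Agent.P8H82.WS

open NumberField IsDedekindDomain MeasureTheory Filter Topology
open Pool.Agent.P8H82.JG (Gold Triple Rep rad dens shp Reps lam c0 rho mass lam_pos S_BETA S_RAD)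
open Pool.Agent.P8H82.PH (Fam Gn Gn_lt exists_mu)

variable {K : Type} [Field K] [NumberField K]

theorem s_lam : S_LAM := Pool.Agent.P8H20.WS.lam

theorem s_jt : S_JT := Pool.Agent.P8H20.WS.jt

theorem s_two : S_TWO := Pool.Agent.P8H20.WS.two

theorem s_val : S_VAL := Pool.Agent.P8H57.WS.val s_two

theorem s_fpl : S_FPL := Pool.Agent.P8H88.WS.fpl

theorem s_ipl : S_IPL := Pool.Agent.P8H88.WS.ipl

theorem s_qq : S_QQ := Pool.Agent.P8H78.WS.qq

theorem s_gg : S_GG := Pool.Agent.P8H78.WS.gg_all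

theorem s_law : S_LAW := Pool.Agent.P8H56.WS.law

/-- the total mass -/
noncomputable def I0 : ℝ := ∫ x : ℝ × ℝ, dens x.1 * dens x.2

/-- the constant -/
noncomputable def AA (K : Type) [Field K] [NumberField K] : ℝ :=
  (1 / 25 : ℝ) ^ ((2 : ℝ) / 3) * (lam * c0 K) * ((∑' w : Ideal (𝓞 K), mw w) * I0)

/-- the distribution function -/
noncomputable def FF (K : Type) [Field K] [NumberField K] (x : ℝ) : ℝ :=
  (∑' w : Ideal (𝓞 K), mw w * mass (QQ aa (12 * x + cc w))) / ∑' w : Ideal (𝓞 K), mw w * I0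

theorem mw_nonneg (w : Ideal (𝓞 K)) : 0 ≤ mw w := by
  have h := Pool.Agent.P8H82.JG.rho_nonneg w
  unfold mw
  split_ifs
  · exact h
  · positivity
  · exact le_rfl

theorem mw_le (w : Ideal (𝓞 K)) : mw w ≤ (4 : ℝ) ^ ((2 : ℝ) / 3) * rho w := by
  have h := Pool.Agent.P8H82.JG.rho_nonneg w
  have h4 : (1 : ℝ) ≤ (4 : ℝ) ^ ((2 : ℝ) / 3) := Real.one_le_rpow (by norm_num) (by norm_num)
  unfold mw
  split_ifs
  · nlinarith
  · exact le_rfl
  · positivity

theorem mw_sum (hsum : Summable fun w : Ideal (𝓞 K) => rho w) :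
    Summable fun w : Ideal (𝓞 K) => mw w :=
  Summable.of_nonneg_of_le mw_nonneg mw_le (hsum.mul_left _)

theorem I0_eq : I0 = mass Set.univ := by
  unfold I0 mass
  rw [setIntegral_univ]

theorem I0_pos : 0 < I0 := by
  rw [I0_eq, Pool.Agent.P8H82.JG.mass_univ s_beta]
  have h1 : 0 < Real.Gamma (1 / 3) := Real.Gamma_pos_of_pos (by norm_num)
  have h2 : 0 < Real.Gamma (2 / 3) := Real.Gamma_pos_of_pos (by norm_num)
  positivity

theorem rho_pos {w : Ideal (𝓞 K)} (hw : w ≠ ⊥) : 0 < rho w := by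
  have h1 : (0 : ℝ) < Ideal.absNorm w := by
    have : Ideal.absNorm w ≠ 0 := fun h => hw (Ideal.absNorm_eq_zero_iff.1 h)
    exact_mod_cast Nat.pos_of_ne_zero this
  unfold rho
  refine mul_pos (Real.rpow_pos_of_pos h1 _) ?_
  refine finprod_induction (fun x : ℝ => 0 < x) one_pos (fun a b ha hb => mul_pos ha hb)
    fun P => ?_
  refine finprod_induction (fun x : ℝ => 0 < x) one_pos (fun a b ha hb => mul_pos ha hb)
    fun _ => ?_
  have h := Pool.Agent.P8H82.JG.two_le_nP P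
  refine div_pos (by linarith) ?_
  nlinarith

/-- some weight is positive -/
theorem mw_pos : ∃ w : Ideal (𝓞 K), 0 < mw w := by
  refine ⟨Ideal.span {16}, ?_⟩
  unfold mw
  rw [if_pos le_rfl]
  refine rho_pos fun h => ?_
  rw [Ideal.span_singleton_eq_bot] at h
  norm_num at h

theorem mass_eq (y : ℝ) : mass (QQ aa y) = ∫ x in QQ aa y, dens x.1 * dens x.2 := rfl

/-- the properties of the distribution function -/
theorem FF_props (hsum : Summable fun w : Ideal (𝓞 K) => rho w) :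
    Continuous (FF K) ∧ Monotone (FF K) ∧ (∀ x, FF K x < 1) ∧ Tendsto (FF K) atBot (𝓝 0) ∧
      Tendsto (FF K) atTop (𝓝 1) := by
  obtain ⟨g1, g2, g3, g4, g5⟩ := s_gg aa inc_aa s_beta.1
  exact s_law (Ideal (𝓞 K)) mw cc (fun y => ∫ x in QQ aa y, dens x.1 * dens x.2) I0
    (2 * aa 1728) mw_nonneg (mw_sum hsum) mw_pos I0_pos g1 g2 g3 g4 g5

theorem tsum_pos' (hsum : Summable fun w : Ideal (𝓞 K) => rho w) :
    0 < ∑' w : Ideal (𝓞 K), mw w := by
  obtain ⟨w, hw⟩ := mw_pos (K := K)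
  exact (mw_sum hsum).tsum_pos mw_nonneg w hw

theorem AA_pos (h0 : 0 < c0 K) (hsum : Summable fun w : Ideal (𝓞 K) => rho w) : 0 < AA K := by
  have h1 := tsum_pos' hsum
  have h2 := I0_pos
  have h3 := lam_pos
  unfold AA
  positivity

/-- the asymptotic number -/
theorem tot_lim (hK : Module.finrank ℚ K = 2) (h5 : ∃ s : K, s ^ 2 = 5) {σ τ : K →+* ℝ}
    (hG : Gold K σ τ) :
    Tendsto (fun X : ℝ => ({l : K | Okl l ∧ NA l ≤ X}.ncard : ℝ) / X ^ ((2 : ℝ) / 3)) atTop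
      (𝓝 (AA K)) := by
  have h := lim_of s_lam s_val hK h5 hG (fun _ => True) (fun _ => Set.univ)
    (fun _ => ⟨MeasurableSet.univ, by simp⟩) (fun t w _ _ _ => by simp)
  have e : (1 / 25 : ℝ) ^ ((2 : ℝ) / 3) * (lam * c0 K) *
      ∑' w : Ideal (𝓞 K), mw w * mass Set.univ = AA K := by
    rw [tsum_mul_right, ← I0_eq]
    rfl
  rw [e] at h
  simpa only [and_true] using h

/-- the law of the height -/
theorem law_lim (hK : Module.finrank ℚ K = 2) (h5 : ∃ s : K, s ^ 2 = 5) {σ τ : K →+* ℝ}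
    (hG : Gold K σ τ) (hsum : Summable fun w : Ideal (𝓞 K) => rho w) (x : ℝ) :
    Tendsto (fun X : ℝ => ({l : K | Okl l ∧ NA l ≤ X ∧
      hA l ≤ 1 / 6 * Real.log (NA l) + x}.ncard : ℝ) / X ^ ((2 : ℝ) / 3)) atTop
      (𝓝 (AA K * FF K x)) := by
  have h := lim_of s_lam s_val hK h5 hG (fun l => hA l ≤ 1 / 6 * Real.log (NA l) + x)
    (fun w => QQ aa (12 * x + cc w)) (fun w => s_qq aa inc_aa _)
    (fun t w ht hw h16 => height_iff s_val s_fpl s_ipl s_jt hK hG x ht hw h16)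
  have e : (1 / 25 : ℝ) ^ ((2 : ℝ) / 3) * (lam * c0 K) *
      ∑' w : Ideal (𝓞 K), mw w * mass (QQ aa (12 * x + cc w)) = AA K * FF K x := by
    have h1 := (tsum_pos' hsum).ne'
    have h2 := I0_pos.ne'
    unfold AA FF
    rw [tsum_mul_right]
    field_simp
  rw [e] at h
  exact h

/-- the family -/
theorem fam (hK : Module.finrank ℚ K = 2) (h5 : ∃ s : K, s ^ 2 = 5) {σ τ : K →+* ℝ}
    (hG : Gold K σ τ) (h0 : 0 < c0 K) (hsum : Summable fun w : Ideal (𝓞 K) => rho w)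
    (hex : ∀ X : ℝ, 1 ≤ X → ∃ E : Finset (𝓞 K × 𝓞 K × 𝓞 K), Reps X E)
    {μ : Measure ℝ} (hμ : IsProbabilityMeasure μ) (hF : ∀ x, μ.real (Set.Iic x) = FF K x) :
    Fam {l : K // Okl l} (fun i => NA i.1) (fun i => hA i.1 - Real.log (NA i.1) / 6)
      ((2 : ℝ) / 3) (AA K) μ := by
  have hcard : ∀ (X : ℝ) (P : K → Prop),
      {i : {l : K // Okl l} | NA i.1 ≤ X ∧ P i.1}.ncard = {l : K | Okl l ∧ NA l ≤ X ∧ P l}.ncard := by
    intro X P
    rw [← Set.ncard_image_of_injective _ Subtype.val_injective]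
    congr 1
    ext l
    constructor
    · rintro ⟨i, ⟨h1, h2⟩, rfl⟩
      exact ⟨i.2, h1, h2⟩
    · rintro ⟨h1, h2, h3⟩
      exact ⟨⟨l, h1⟩, ⟨h2, h3⟩, rfl⟩
  refine ⟨fun i => NA_one _, fun X => ?_, by norm_num, AA_pos h0 hsum, hμ, ?_, ?_, fun x => ?_⟩
  · have hX : (1 : ℝ) ≤ max X 25 / 25 := by
      rw [le_div_iff₀ (by norm_num), one_mul]
      exact le_max_right _ _
    obtain ⟨E, hE⟩ := hex _ hX
    obtain ⟨E', hE'⟩ := hex (4 * (max X 25 / 25)) (by linarith)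
    have h1 := (split_card s_lam s_val hK h5 hG (fun _ => True) hE hE').1
    refine Set.Finite.of_finite_image (f := Subtype.val) (h1.subset ?_)
      Subtype.val_injective.injOn
    rintro l ⟨i, hi, rfl⟩
    exact ⟨i.2, le_trans hi (le_max_left _ _), trivial⟩
  · have h1 := (FF_props hsum).1
    refine h1.congr fun x => (hF x).symm
  · have h1 := tot_lim hK h5 hG
    refine h1.congr fun X => ?_
    have h2 := hcard X fun _ => True
    simp only [and_true] at h2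
    rw [h2]
  · have h1 := law_lim hK h5 hG hsum x
    rw [← hF] at h1
    refine h1.congr fun X => ?_
    have h2 := hcard X fun l => hA l ≤ 1 / 6 * Real.log (NA l) + x
    rw [← h2]
    congr 3
    ext i
    constructor
    · rintro ⟨h3, h4⟩
      exact ⟨h3, by linarith⟩
    · rintro ⟨h3, h4⟩
      exact ⟨h3, by linarith⟩

/-- the final theorem for the parameters -/
theorem final (hK : Module.finrank ℚ K = 2) (h5 : ∃ s : K, s ^ 2 = 5) :
    0 < c0 K ∧ HasProd (fun P : HeightOneSpectrum (𝓞 K) => 1 - 4 /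
      Pool.Agent.P8H82.JG.nP P ^ 2 + 3 / Pool.Agent.P8H82.JG.nP P ^ 3) (c0 K) ∧
    (Summable fun w : Ideal (𝓞 K) => mw w) ∧ 0 < ∑' w : Ideal (𝓞 K), mw w ∧
    (∃ σ τ : K →+* ℝ, Gold K σ τ) ∧
    ∃ μ : Measure ℝ, IsProbabilityMeasure μ ∧ (∀ x, μ.real (Set.Iic x) = FF K x) ∧
      Continuous (FF K) ∧
      ∀ n : ℕ,
        Tendsto (fun X : ℝ => ((Tu Okl (NA (K := K)) (n + 1) X fun _ => True).ncard : ℝ) /
          (X ^ ((2 : ℝ) / 3) * Real.log X ^ n)) atTop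
          (𝓝 (AA K ^ (n + 1) * (2 / 3 : ℝ) ^ n / n.factorial)) ∧
        (∀ x : ℝ, Tendsto (fun X : ℝ => ((Tu Okl (NA (K := K)) (n + 1) X fun q => ∑ k, hA (q k) ≤
          1 / 6 * Real.log (∏ k, NA (q k)) + x).ncard : ℝ) /
            ((Tu Okl (NA (K := K)) (n + 1) X fun _ => True).ncard : ℝ)) atTop
              (𝓝 (Gn μ (n + 1) x)) ∧ Gn μ (n + 1) x < 1) ∧
        ∀ κ c : ℝ,
          (1 / 6 < κ → Tendsto (fun X : ℝ => ((Tu Okl (NA (K := K)) (n + 1) X fun q =>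
            ∑ k, hA (q k) ≤ κ * Real.log (∏ k, NA (q k)) + c).ncard : ℝ) /
              ((Tu Okl (NA (K := K)) (n + 1) X fun _ => True).ncard : ℝ)) atTop (𝓝 1)) ∧
          (κ < 1 / 6 → Tendsto (fun X : ℝ => ((Tu Okl (NA (K := K)) (n + 1) X fun q =>
            ∑ k, hA (q k) ≤ κ * Real.log (∏ k, NA (q k)) + c).ncard : ℝ) /
              ((Tu Okl (NA (K := K)) (n + 1) X fun _ => True).ncard : ℝ)) atTop (𝓝 0)) := by
  obtain ⟨h0, -, hpr, -, hsum, ⟨σ, τ, hst⟩, -, -, hex, -⟩ :=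
    Pool.Agent.P8H82.JG.main_thm (K := K) hK h5
  have hG : Gold K σ τ := ⟨hK, h5, hst⟩
  obtain ⟨f1, f2, f3, f4, f5⟩ := FF_props hsum
  obtain ⟨μ, hμ, hμF⟩ := exists_mu f1 f2 f4 f5
  have hfam := fam hK h5 hG h0 hsum hex hμ hμF
  refine ⟨h0, hpr, mw_sum hsum, tsum_pos' hsum, ⟨σ, τ, hG⟩, μ, hμ, hμF, f1, fun n => ?_⟩
  obtain ⟨a1, a2, a3⟩ := gen_final hfam n
  exact ⟨a1, fun x => ⟨a2 x, Gn_lt (fun y => by rw [hμF]; exact f3 y) n x⟩, a3⟩

end Pool.Agent.P8H82.WS
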