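import Mathlib
import Pool.Agent.P8H82.WS.Fin
import Pool.Agent.P8H82.WS.Stm2

set_option autoImplicit false

/-!
# Project WS: the semistable curves
-/

namespace Pool.Agent.P8H82.WS

open NumberField IsDedekindDomain MeasureTheory Filter Topology
open Pool.Agent.P8H82.JG (Gold Triple)

variable {K : Type} [Field K] [NumberField K]

theorem int_disc {v : HeightOneSpectrum (𝓞 K)} {E : WeierstrassCurve K} (h : IntAt v E) :
    v.valuation K E.Δ ≤ 1 := by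
  obtain ⟨h1, h2, h3, h4, h6⟩ := h
  obtain ⟨R, hR⟩ : ∃ R : Subring K, R = (v.valuation K).integer := ⟨_, rfl⟩
  have m : ∀ x : K, x ∈ R ↔ v.valuation K x ≤ 1 := by
    intro x
    rw [hR]
    exact Iff.rfl
  rw [← m] at h1 h2 h3 h4 h6 ⊢
  have n : ∀ n : ℕ, (n : K) ∈ R := natCast_mem R
  have n2 : (2 : K) ∈ R := by exact_mod_cast n 2
  have n4 : (4 : K) ∈ R := by exact_mod_cast n 4
  have n8 : (8 : K) ∈ R := by exact_mod_cast n 8
  have n9 : (9 : K) ∈ R := by exact_mod_cast n 9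
  have n27 : (27 : K) ∈ R := by exact_mod_cast n 27
  have b2 : E.b₂ ∈ R := add_mem (pow_mem h1 2) (mul_mem n4 h2)
  have b4 : E.b₄ ∈ R := add_mem (mul_mem n2 h4) (mul_mem h1 h3)
  have b6 : E.b₆ ∈ R := add_mem (pow_mem h3 2) (mul_mem n4 h6)
  have b8 : E.b₈ ∈ R := sub_mem (add_mem (sub_mem (add_mem (mul_mem (pow_mem h1 2) h6)
    (mul_mem (mul_mem n4 h2) h6)) (mul_mem (mul_mem h1 h3) h4)) (mul_mem h2 (pow_mem h3 2)))
    (pow_mem h4 2)
  exact add_mem (sub_mem (sub_mem (mul_mem (neg_mem (pow_mem b2 2)) b8)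
    (mul_mem n8 (pow_mem b4 3))) (mul_mem n27 (pow_mem b6 2)))
    (mul_mem (mul_mem (mul_mem n9 b2) b4) b6)

theorem above_two {σ τ : K →+* ℝ} (hG : Gold K σ τ) {v : HeightOneSpectrum (𝓞 K)}
    (hv : v.valuation K 2 < 1) : v.asIdeal = Ideal.span {2} := by
  obtain ⟨P, hP, -⟩ := s_two K σ τ hG
  have h1 : (2 : 𝓞 K) ∈ v.asIdeal := by
    rw [← v.valuation_lt_one_iff_mem (K := K)]
    refine lt_of_eq_of_lt (congrArg _ ?_) hv
    exact map_ofNat (algebraMap (𝓞 K) K) 2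
  have h2 : P.asIdeal ≤ v.asIdeal := by
    rw [hP, Ideal.span_singleton_le_iff_mem]
    exact h1
  have h3 : P.asIdeal = v.asIdeal := P.isMaximal.eq_of_le v.isPrime.ne_top h2
  rw [← h3, hP]

theorem j_change (C : WeierstrassCurve.VariableChange K) (E : WeierstrassCurve K) :
    (C • E).c₄ ^ 3 / (C • E).Δ = E.c₄ ^ 3 / E.Δ := by
  rw [WeierstrassCurve.variableChange_c₄, WeierstrassCurve.variableChange_Δ]
  have hu : (C.u : K) ≠ 0 := C.u.ne_zero
  by_cases h : E.Δ = 0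
  · rw [h]
    simp
  · push_cast
    field_simp

/-- the parameters are the Legendre parameters of the semistable curves -/
theorem sem_iff (hSEA : S_SEA) (hORD : S_ORD) (hSEC : S_SEC) (hK : Module.finrank ℚ K = 2)
    (h5 : ∃ s : K, s ^ 2 = 5) {σ τ : K →+* ℝ} (hG : Gold K σ τ) (l : K) :
    Okl l ↔ ∃ E : WeierstrassCurve K, IsLeg E l ∧ ∀ v, SemiAt v E := by
  constructor
  · rintro ⟨h1, h2, h3⟩
    obtain ⟨-, a2, -⟩ := s_lam K hK h5
    obtain ⟨t, ht, rfl⟩ := a2 l h1 h2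
    obtain ⟨b1, -⟩ := s_val K σ τ hG t ht
    obtain ⟨E, hE, hl⟩ := hSEC K σ τ hG t ht (b1.1 h3)
    exact ⟨E, hl, hE⟩
  · rintro ⟨E, ⟨e, he, rfl⟩, hs⟩
    obtain ⟨h0, h1, h2, h3, -⟩ := hSEA K E e he
    refine ⟨h1, h2, fun P hP => ?_⟩
    obtain ⟨C, hC, hc⟩ := hORD K P (above_two hG hP) E h0 ⟨e 0, he.root 0⟩ (hs P)
    rw [← h3, ← j_change C E, map_div₀, map_pow, hc, one_pow]
    have hd := int_disc hC
    have hd0 : (C • E).Δ ≠ 0 := by
      rw [WeierstrassCurve.variableChange_Δ]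
      have hu : ((C.u⁻¹ : Kˣ) : K) ≠ 0 := Units.ne_zero _
      exact mul_ne_zero (pow_ne_zero _ hu) h0
    have hd1 : P.valuation K (C • E).Δ ≠ 0 := (Valuation.ne_zero_iff _).2 hd0
    rw [one_div]
    exact (one_le_inv₀ (zero_lt_iff.2 hd1)).2 hd

/-- the conductor is the product of the norms of the primes of bad reduction -/
theorem cond_eq (hSEA : S_SEA) (hSED : S_SED) {E : WeierstrassCurve K} {l : K} (hl : IsLeg E l)
    (hs : ∀ v, SemiAt v E) :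
    25 * ∏ᶠ v ∈ {v : HeightOneSpectrum (𝓞 K) | ¬ GoodAt v E}, (Ideal.absNorm v.asIdeal : ℝ) =
      NA l := by
  obtain ⟨e, he, rfl⟩ := hl
  obtain ⟨h0, h1, h2, h3, -⟩ := hSEA K E e he
  unfold NA condJ
  congr 1
  refine finprod_congr fun v => ?_
  have hv := hSED K v E h0 (hs v)
  rw [h3] at hv
  have hiff : (v ∈ {v : HeightOneSpectrum (𝓞 K) | ¬ GoodAt v E}) =
      (1 < v.valuation K (jL ((e 2 - e 0) / (e 1 - e 0)))) := by
    apply propext
    rw [Set.mem_ofPred_eq, hv, not_le]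
  rw [hiff]

/-- the semistable curve with a given Legendre parameter is unique -/
theorem sem_unique (hSEA : S_SEA) (hISO : S_ISO) (hLOC : S_LOC) (hGLO : S_GLO)
    {σ τ : K →+* ℝ} (hG : Gold K σ τ) {E E' : WeierstrassCurve K} {l : K} (hl : IsLeg E l)
    (hl' : IsLeg E' l) (hs : ∀ v, SemiAt v E) (hs' : ∀ v, SemiAt v E') :
    ∃ C : WeierstrassCurve.VariableChange K, C • E = E' := by
  obtain ⟨e, he, h1⟩ := hl
  obtain ⟨e', he', h2⟩ := hl'
  obtain ⟨h0, -, -, -, h3⟩ := hSEA K E e he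
  have n1 : e 1 - e 0 ≠ 0 := sub_ne_zero.2 fun h => absurd (he.inj h) (by decide)
  have n2 : e' 1 - e' 0 ≠ 0 := sub_ne_zero.2 fun h => absurd (he'.inj h) (by decide)
  obtain ⟨δ, hδ⟩ : ∃ δ : K, δ = (e' 1 - e' 0) / (e 1 - e 0) := ⟨_, rfl⟩
  obtain ⟨c1, c2, c3⟩ := h3 E' e' he' (h2.symm.trans h1) δ hδ
  have hδ0 : δ ≠ 0 := by
    rw [hδ]
    exact div_ne_zero n2 n1
  have hloc := fun v => hLOC K v E E' δ h0 hδ0 (hs v) (hs' v) ⟨e 0, he.root 0⟩
    ⟨e' 0, he'.root 0⟩ c1 c2 c3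
  obtain ⟨g, hg0, hg⟩ := hGLO K σ τ hG δ hδ0 (fun v => (hloc v).1) (fun v => (hloc v).2)
  refine hISO K E E' e e' he he' g hg0 ?_ ?_
  · rw [← hg, hδ, div_mul_cancel₀ _ n1]
  · rw [h1, div_eq_div_iff n1 n2] at h2
    rw [← hg, hδ, div_mul_eq_mul_div, eq_div_iff n1]
    linear_combination -h2

/-- the periods -/
theorem per_all (hK : Module.finrank ℚ K = 2) (h5 : ∃ s : K, s ^ 2 = 5) {σ τ : K →+* ℝ}
    (hG : Gold K σ τ) {l : K} (hl : Okl l)
    (w : InfinitePlace K) : ∃! z, IsPz (w.embedding (jL l)) z := by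
  classical
  obtain ⟨h1, h2, -⟩ := hl
  obtain ⟨-, a2, -⟩ := s_lam K hK h5
  obtain ⟨t, ht, rfl⟩ := a2 l h1 h2
  obtain ⟨s1, s2, s3⟩ := (s_jt K t ht).2 σ
  obtain ⟨t1, t2, t3⟩ := (s_jt K t ht).2 τ
  have h := s_ipl K σ τ hG (fun z => if ∃! y, IsPz z y then 0 else 1) (jL (lamT t))
  rw [s3, t3, if_pos (ex_unique (Pool.Agent.P8H78.WS.jr_ge s1 s2)), if_pos (ex_unique (Pool.Agent.P8H78.WS.jr_ge t1 t2)), add_zero] at h
  have h0 : ∀ w ∈ (Finset.univ : Finset (InfinitePlace K)), (0 : ℝ) ≤ (w.mult : ℝ) *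
      (if ∃! y, IsPz (w.embedding (jL (lamT t))) y then 0 else 1) := by
    intro w _
    refine mul_nonneg (Nat.cast_nonneg _) ?_
    split_ifs <;> norm_num
  have h3 := (Finset.sum_eq_zero_iff_of_nonneg h0).1 h w (Finset.mem_univ w)
  by_contra hn
  rw [if_neg hn, mul_one] at h3
  exact w.mult_ne_zero (by exact_mod_cast h3)

end Pool.Agent.P8H82.WS
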