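import Mathlib
import Pool.Agent.P8H82.WS.Sem
import Pool.Agent.P8H57.WS.Sea
import Pool.Agent.P8H71.WS.Ord
import Pool.Agent.P8H71.WS.Uni
import Pool.Agent.P8H71.WS.Loc
import Pool.Agent.P8H71.WS.Glo
import Pool.Agent.P8H33.WS.Sef
import Pool.Agent.P8H33.WS.Sec
import Pool.Agent.P8H33.WS.Iso

set_option autoImplicit false

/-!
# Project WS: the packages of the second list
-/

namespace Pool.Agent.P8H82.WS

theorem s_sea : S_SEA := Pool.Agent.P8H57.WS.sea

theorem s_sed : S_SED := Pool.Agent.P8H57.WS.sed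

theorem s_ord : S_ORD := Pool.Agent.P8H71.WS.ORD.ord

theorem s_sec : S_SEC :=
  Pool.Agent.P8H33.WS.sec s_two Pool.Agent.P8H71.WS.UNI.uni Pool.Agent.P8H33.WS.sef

theorem s_iso : S_ISO := Pool.Agent.P8H33.WS.iso

theorem s_loc : S_LOC := Pool.Agent.P8H71.WS.LOC.loc

theorem s_glo : S_GLO := Pool.Agent.P8H71.WS.GLO.glo

end Pool.Agent.P8H82.WS
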